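import Mathlib
import Pool.Agent.Lib.MP_069854_nt.RC.C12
import Pool.Agent.Lib.MP_069854_nt.RC.C14
import Pool.Agent.Lib.MP_069854_nt.RC.C15

namespace Pool.Agent.Results.MP_069854_nt.DeterminingShifts

open Filter Topology Complex MeasureTheory Matrix Asymptotics
open scoped ContDiff ComplexConjugate

/-- `d_k(n)`: the number of ways of writing `n` as an ordered product of `k` positive integers. -/
def d (k n : ℕ) : ℕ := (Nat.finMulAntidiag k n).card

/-- The Euler factor at the prime `p` of the arithmetic constant `a_k`. -/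
noncomputable def eulerFactor (k : ℕ) (p : Nat.Primes) : ℝ :=
  (1 - 1 / ((p : ℕ) : ℝ)) ^ (k ^ 2) * ∑' m : ℕ, (d k ((p : ℕ) ^ m) : ℝ) ^ 2 / ((p : ℕ) : ℝ) ^ m

/-- The arithmetic factor `a_k`. -/
noncomputable def a (k : ℕ) : ℝ := ∏' p : Nat.Primes, eulerFactor k p

/-- `Q_k(z,T)`, the problem's `Q_k(α,T)` with the shift `z = α` allowed to be complex. For `z = 0` it
is the `2k`-th moment `T⁻¹ ∫₀ᵀ |ζ(1/2+it)|^{2k} dt` divided by `(log T)^{k²}`, for `z = -ic`, `c` real,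
the same moment on the line `1/2 + c/log T` (second item of `result`). -/
noncomputable def Q (k : ℕ) (z : ℂ) (T : ℝ) : ℂ :=
  ((T * Real.log T ^ (k ^ 2) : ℝ) : ℂ)⁻¹ *
    ∫ t in (0:ℝ)..T, riemannZeta (1/2 + I * z / Real.log T + I * t) ^ k *
      riemannZeta (1/2 + I * z / Real.log T - I * t) ^ k

/-- `W_k(z,N)`, with `μ` the Haar probability measure on `U(N)`, for complex `z`. -/
noncomputable def W (N : ℕ) [MeasurableSpace (unitaryGroup (Fin N) ℂ)]
    (μ : Measure (unitaryGroup (Fin N) ℂ)) (k : ℕ) (z : ℂ) : ℂ :=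
  ((N : ℂ) ^ (k ^ 2))⁻¹ * ∫ U : unitaryGroup (Fin N) ℂ,
    det (1 - Complex.exp (-I * z / N) • (U : Matrix (Fin N) (Fin N) ℂ)) ^ k *
    det (1 - Complex.exp (-I * z / N) • star (U : Matrix (Fin N) (Fin N) ℂ)) ^ k ∂μ

/-- The function `φ(α) = ∫ g(u) e^{iuα} du` with frequency profile `g`. -/
noncomputable def phi (g : ℝ → ℂ) (α : ℝ) : ℂ := ∫ u : ℝ, g u * Complex.exp (I * u * α)

/-- `J` is a determining set of shifts for `k`: every exponential `e^{-iyu}` is, uniformly for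
`2 ≤ u ≤ 2k - 2`, a limit of finite linear combinations of exponentials `e^{-ixu}` in which `x` or
the reflected point `-conj x` belongs to `J` (that is, these exponentials span a dense subspace of
the continuous functions on `[2, 2k-2]`). -/
def Determining (k : ℕ) (J : Set ℂ) : Prop :=
  ∀ (y : ℂ) (ε : ℝ), 0 < ε → ∃ (m : ℕ) (x : Fin m → ℂ) (c : Fin m → ℂ),
    (∀ j, x j ∈ J ∨ -conj (x j) ∈ J) ∧ ∀ u : ℝ, 2 ≤ u → u ≤ 2 * (k : ℝ) - 2 →
      ‖Complex.exp (-(I * y * u)) - ∑ j, c j * Complex.exp (-(I * x j * u))‖ ≤ ε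

theorem result (k : ℕ) (hk : 1 ≤ k) :
    Multipliable (eulerFactor k) ∧
    -- imaginary shifts are moments on nearby lines
    (∀ c T : ℝ, Q k (-(I * c)) T = (((T * Real.log T ^ (k ^ 2))⁻¹ *
      ∫ t in (0:ℝ)..T, ‖riemannZeta (1/2 + ((c / Real.log T : ℝ) : ℂ) + I * t)‖ ^ (2 * k) : ℝ) : ℂ)) ∧
    -- three families of determining sets: infinite bounded sets (for example the points of a
    -- short interval, or of a short interval on the imaginary axis, far from 0); sets containing all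
    -- large multiples of a step h < π/(k-2); sets containing all large multiples of -ih, h > 0
    (∀ J : Set ℂ, J.Infinite → Bornology.IsBounded J → Determining k J) ∧
    (∀ (J : Set ℂ) (h : ℝ), 0 < h → h * ((k : ℝ) - 2) < Real.pi →
      (∀ᶠ n : ℕ in atTop, (((n : ℝ) * h : ℝ) : ℂ) ∈ J) → Determining k J) ∧
    (∀ (J : Set ℂ) (h : ℝ), 0 < h →
      (∀ᶠ n : ℕ in atTop, -(I * (((n : ℝ) * h : ℝ) : ℂ)) ∈ J) → Determining k J) ∧
    -- order of magnitude
    (∀ J : Set ℂ, Determining k J →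
      (((Q k 0) =O[atTop] fun _ : ℝ => (1 : ℝ)) ↔
        ∀ x ∈ J, ((Q k x) =O[atTop] fun _ : ℝ => (1 : ℝ)))) ∧
    (∀ z : ℂ, |z.re| * ((k : ℝ) - 2) < Real.pi / 2 →
      (((Q k 0) =O[atTop] fun _ : ℝ => (1 : ℝ)) ↔ ((Q k z) =O[atTop] fun _ : ℝ => (1 : ℝ)))) ∧
    -- convergence
    (∀ J : Set ℂ, Determining k J →
      (∀ x ∈ J, ∃ l : ℂ, Tendsto (fun T : ℝ => Q k x T) atTop (𝓝 l)) →
        ∀ z : ℂ, ∃ l : ℂ, Tendsto (fun T : ℝ => Q k z T) atTop (𝓝 l)) ∧
    -- the predicted limit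
    (∀ [∀ N, MeasurableSpace (unitaryGroup (Fin N) ℂ)] [∀ N, BorelSpace (unitaryGroup (Fin N) ℂ)]
      (μ : ∀ N, Measure (unitaryGroup (Fin N) ℂ)) [∀ N, IsProbabilityMeasure (μ N)]
      [∀ N, (μ N).IsHaarMeasure],
      ((∀ α : ℝ, ∃ l : ℂ, Tendsto (fun N : ℕ => W N (μ N) k α) atTop (𝓝 l)) →
        ∀ z : ℂ, ∃ l : ℂ, Tendsto (fun N : ℕ => W N (μ N) k z) atTop (𝓝 l)) ∧
      ∀ 𝒲 : ℂ → ℂ, (∀ z : ℂ, Tendsto (fun N : ℕ => W N (μ N) k z) atTop (𝓝 (𝒲 z))) →
        (∀ g : ℝ → ℂ, ContDiff ℝ ∞ g → HasCompactSupport g →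
          (∀ T : ℝ, 1 < T → Integrable fun α : ℝ => phi g α * Q k α T) ∧
            Integrable fun α : ℝ => phi g α * 𝒲 α) ∧
        ((∀ z : ℂ, Tendsto (fun T : ℝ => Q k z T) atTop (𝓝 (a k * 𝒲 z))) ↔
          ∀ α : ℝ, Tendsto (fun T : ℝ => Q k α T) atTop (𝓝 (a k * 𝒲 α))) ∧
        (∀ J : Set ℂ, Determining k J →
          ((∀ z : ℂ, Tendsto (fun T : ℝ => Q k z T) atTop (𝓝 (a k * 𝒲 z))) ↔
            ∀ z ∈ J, Tendsto (fun T : ℝ => Q k z T) atTop (𝓝 (a k * 𝒲 z)))) ∧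
        ∀ ε : ℝ, 0 < ε →
          ((∀ z : ℂ, Tendsto (fun T : ℝ => Q k z T) atTop (𝓝 (a k * 𝒲 z))) ↔
            ∀ g : ℝ → ℂ, ContDiff ℝ ∞ g → HasCompactSupport g →
              (∀ u ∈ tsupport g, 2 - ε < u ∧ u < 2 * (k : ℝ) - 2 + ε) →
              Tendsto (fun T : ℝ => ∫ α : ℝ, phi g α * Q k α T) atTop
                (𝓝 (a k * ∫ α : ℝ, phi g α * 𝒲 α)))) := by
  have hphi : ∀ (g : ℝ → ℂ) (α : ℝ), phi g α = MP069854.G g (α * I) := by
    intro g α
    unfold phi MP069854.G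
    refine integral_congr_ae (Eventually.of_forall fun u => ?_)
    simp only
    congr 2
    ring
  have hO : ∀ z : ℂ, ((Q k z) =O[atTop] fun _ : ℝ => (1 : ℝ)) ↔
      ∃ B : ℝ, ∀ᶠ T : ℝ in atTop, ‖RCX.QC k z T‖ ≤ B := by
    intro z
    rw [isBigO_iff]
    refine exists_congr fun B => ?_
    simp only [norm_one, mul_one]
    rfl
  have hO0 : ((Q k 0) =O[atTop] fun _ : ℝ => (1 : ℝ)) ↔
      ∃ B : ℝ, ∀ᶠ T : ℝ in atTop, MP069854.Jn k T ≤ B := by
    rw [hO 0]
    refine exists_congr fun B => eventually_congr ?_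
    filter_upwards [eventually_gt_atTop (1 : ℝ)] with T hT
    rw [RCX.QC_zero, Complex.norm_real, Real.norm_of_nonneg (RGX.Jn_nn k hT)]
  have hDet : ∀ J : Set ℂ, Determining k J → RCX.DC k (RCX.syC J) := fun J h => h
  have hAcc : ∀ J : Set ℂ, J.Infinite → Bornology.IsBounded J → Determining k J := by
    intro J hJ hb
    obtain ⟨p, -, hp⟩ := hJ.exists_accPt_of_subset_isCompact hb.isCompact_closure subset_closure
    exact RCX.syC_det (RCX.det_acc' k hp)
  refine ⟨MP069854.arith_multipliable k, RCX.QC_off k, hAcc, ?_, ?_, ?_, ?_, ?_, ?_⟩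
  · intro J h h0 hh hJ
    obtain ⟨N, hN⟩ := eventually_atTop.1 hJ
    refine RCX.det_lat' (J := RCX.syC J) hk h0 hh (F := Set.Icc (-(N : ℤ)) N) (Set.finite_Icc _ _)
      fun n hn => ?_
    rw [Set.mem_Icc, not_and_or, not_le, not_le] at hn
    rcases hn with hn | hn
    · right
      have h1 := hN (-n).toNat (by omega)
      have h2 : (((-n).toNat : ℕ) : ℝ) = -(n : ℝ) := by
        have : (((-n).toNat : ℕ) : ℤ) = -n := Int.toNat_of_nonneg (by omega)
        exact_mod_cast this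
      rw [h2] at h1
      rwa [Complex.conj_ofReal, ← Complex.ofReal_neg, ← neg_mul]
    · left
      have h1 := hN n.toNat (by omega)
      have h2 : ((n.toNat : ℕ) : ℝ) = (n : ℝ) := by
        have : ((n.toNat : ℕ) : ℤ) = n := Int.toNat_of_nonneg (by omega)
        exact_mod_cast this
      rwa [h2] at h1
  · intro J h h0 hJ
    obtain ⟨N, hN⟩ := eventually_atTop.1 hJ
    exact RCX.syC_det (RCX.det_imag hk h0 (n₀ := N) hN)
  · intro J hJ
    rw [hO0]
    simp only [hO]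
    constructor
    · intro h x hx
      exact (RCX.bdd_iff' hk (hDet J hJ)).1 h x (Or.inl hx)
    · intro h
      exact (RCX.bdd_iff' hk (hDet J hJ)).2 (RCX.syC_bdd h)
  · intro z hz
    rw [hO0, hO]
    constructor
    · rintro ⟨B, hB⟩
      exact RCX.QC_bdd hB z
    · rintro ⟨B, hB⟩
      refine RCX.bdd_of_pos' hk (fun _ : Fin 1 => z) (fun _ => Complex.exp (I * (z.re * k : ℝ))) ?_ ⟨B, ?_⟩
      · intro u h1 h2
        have e : (RCX.PC (fun _ : Fin 1 => z) (fun _ => Complex.exp (I * (z.re * k : ℝ))) u).re =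
            Real.exp (z.im * u) * Real.cos (z.re * (u - k)) := by
          unfold RCX.PC
          rw [Fin.sum_univ_one, ← Complex.exp_add]
          have e1 : (I * ((z.re * k : ℝ) : ℂ) + -(I * z * u)) =
              ((z.im * u : ℝ) : ℂ) + ((-(z.re * (u - k)) : ℝ) : ℂ) * I := by
            have hz' := Complex.re_add_im z
            push_cast
            linear_combination (I * u) * hz' + (-(z.im : ℂ) * u) * Complex.I_sq
          rw [e1, Complex.exp_add, ← Complex.ofReal_exp, Complex.re_ofReal_mul,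
            Complex.exp_ofReal_mul_I_re, Real.cos_neg]
        rw [e]
        have hk2 : |u - k| ≤ (k : ℝ) - 2 := by rw [abs_le]; constructor <;> linarith
        have h3 : |z.re * (u - k)| < Real.pi / 2 := by
          rw [abs_mul]
          exact lt_of_le_of_lt (mul_le_mul_of_nonneg_left hk2 (abs_nonneg _)) hz
        rw [abs_lt] at h3
        exact mul_pos (Real.exp_pos _) (Real.cos_pos_of_mem_Ioo ⟨h3.1, h3.2⟩)
      · filter_upwards [hB] with T hT
        rw [Fin.sum_univ_one]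
        refine (Complex.re_le_norm _).trans ?_
        rw [norm_mul, mul_comm I, Complex.norm_exp_ofReal_mul_I, one_mul]
        exact hT
  · intro J hJ h
    exact RCX.conv_all' hk (hDet J hJ) (RCX.syC_conv h)
  · intro _ _ μ _ _
    refine ⟨RCX.WC_ext μ (RCX.dense_all k), ?_⟩
    intro 𝒲 h𝒲
    have hsy : ∀ J : Set ℂ, (∀ x ∈ J, Tendsto (fun T => RCX.QC k x T) atTop (𝓝 (MP069854.arith k * 𝒲 x))) →
        ∀ x ∈ RCX.syC J, Tendsto (fun T => RCX.QC k x T) atTop (𝓝 (MP069854.arith k * 𝒲 x)) := by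
      intro J h x hx
      rcases hx with hx | hx
      · exact h x hx
      · have h1 := (Complex.continuous_conj.tendsto _).comp (h _ hx)
        rw [RCX.WC_neg μ h𝒲 x, map_mul, Complex.conj_ofReal, Complex.conj_conj] at h1
        refine h1.congr fun T => ?_
        simp only [Function.comp]
        rw [RCX.QC_neg, Complex.conj_conj]
    have hdet : ∀ J : Set ℂ, Determining k J →
        ((∀ z : ℂ, Tendsto (fun T : ℝ => Q k z T) atTop (𝓝 (a k * 𝒲 z))) ↔
          ∀ z ∈ J, Tendsto (fun T : ℝ => Q k z T) atTop (𝓝 (a k * 𝒲 z))) := by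
      intro J hJ
      exact ⟨fun h z _ => h z, fun h z => RCX.pred_all' μ hk (hDet J hJ) h𝒲 (hsy J h) z⟩
    have hreal : (∀ z : ℂ, Tendsto (fun T : ℝ => Q k z T) atTop (𝓝 (a k * 𝒲 z))) ↔
        ∀ α : ℝ, Tendsto (fun T : ℝ => Q k α T) atTop (𝓝 (a k * 𝒲 α)) := by
      refine ⟨fun h α => h α, fun h => ?_⟩
      refine (hdet ((fun x : ℝ => (x : ℂ)) '' Set.Icc 0 1) (hAcc _ ?_ ?_)).2 ?_
      · exact (Set.Icc_infinite zero_lt_one).image Complex.ofReal_injective.injOn
      · exact (isCompact_Icc.image Complex.continuous_ofReal).isBounded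
      · rintro _ ⟨x, -, rfl⟩
        exact h x
    refine ⟨?_, hreal, hdet, ?_⟩
    · intro g hg hc
      obtain ⟨R, t⟩ := MP069854.TF_of_hcs hg hc
      simp only [hphi]
      exact ⟨fun T hT => MP069854.Qk_integrable t hT,
        (MP069854.W_dom μ t (𝒲 := fun α : ℝ => 𝒲 α) fun α => h𝒲 α).1⟩
    · intro ε hε
      rw [hreal]
      simp only [hphi]
      exact MP069854.pointwise_iff μ hk hε (𝒲 := fun α : ℝ => 𝒲 α) fun α => h𝒲 α

end Pool.Agent.Results.MP_069854_nt.DeterminingShifts
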