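import Mathlib
import Pool.Agent.Lib.MP_069854_nt.MX.Shifts
import Pool.Agent.Lib.MP_39df77_nt.T12.Final

namespace Pool.Agent.Results.MP_069854_nt.MixedShifts

open Complex MeasureTheory

/-- `T^{-1} (log T)^{-k²} ∫_0^T ∏_{j<k} ζ(1/2+ia_j+it) ζ(1/2+ib_j-it) dt`; for
`a_j = b_j = α / log T` this is `Q_k(α,T)`. -/
noncomputable def Q (k : ℕ) (a b : Fin k → ℝ) (T : ℝ) : ℂ :=
  (T : ℂ)⁻¹ * ((Real.log T : ℂ) ^ (k ^ 2))⁻¹ *
    ∫ t in (0 : ℝ)..T, ∏ j, (riemannZeta (1 / 2 + I * a j + I * t) *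
      riemannZeta (1 / 2 + I * b j - I * t))

/-- The shifted moments of `ζ` of order `2k`, `3 ≤ k ≤ 6`, with arbitrary shifts of absolute
value at most `T`. -/
theorem result : ∃ c : ℝ, 0 < c ∧ ∀ k : ℕ, 3 ≤ k → k ≤ 6 →
    ∀ δ : ℝ, δ < (6 - (k : ℝ)) / 252 + c * ((k : ℝ) - 3) →
    ∃ C : ℝ, ∀ T : ℝ, 3 ≤ T → ∀ a b : Fin k → ℝ, (∀ j, |a j| ≤ T) → (∀ j, |b j| ≤ T) →
      ‖Q k a b T‖ ≤ C * T ^ (((k : ℝ) - 2) / 4 - δ) := by
  obtain ⟨a, ha, h⟩ := T12.all_orders_y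
  refine ⟨min (a / 3) (1 / 63), lt_min (by linarith) (by norm_num), ?_⟩
  intro k hk3 hk6 δ hδ
  have hk3' : (3 : ℝ) ≤ k := by exact_mod_cast hk3
  have hk6' : (k : ℝ) ≤ 6 := by exact_mod_cast hk6
  have h1 : min (a / 3) (1 / 63) * ((k : ℝ) - 3) ≤ a / 3 * ((k : ℝ) - 3) :=
    mul_le_mul_of_nonneg_right (min_le_left _ _) (by linarith)
  have h2 : min (a / 3) (1 / 63) * ((k : ℝ) - 3) ≤ 1 / 63 * ((k : ℝ) - 3) :=
    mul_le_mul_of_nonneg_right (min_le_right _ _) (by linarith)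
  obtain ⟨C, hC⟩ := h (2 * (k : ℝ)) (by linarith) (by linarith) δ (by
    apply lt_min
    · linarith
    · refine hδ.trans_le ?_
      linarith)
  refine ⟨2 * 2 ^ (1 + (2 * (k : ℝ) - 4) / 8 - δ) * C, fun T hT a b ha hb => ?_⟩
  have h := Zmx.QS_bound (k := k) (θ := 1 + (2 * (k : ℝ) - 4) / 8 - δ) (C := C) (by omega) hC T hT
    a b ha hb
  refine h.trans (le_of_eq ?_)
  congr 2
  ring

end Pool.Agent.Results.MP_069854_nt.MixedShifts
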