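import Pool.Agent.Lib.MP_069854_nt.R9.U8
import Pool.Agent.Lib.MP_069854_nt.R9.V14

set_option autoImplicit false

open Complex MeasureTheory

namespace Pool.Agent.Results.MP_069854_nt.RecipeOffLine

/-- the arithmetic function `n ↦ n^{-z}` -/
noncomputable def pw (z : ℂ) : ArithmeticFunction ℂ :=
  ⟨fun n => if n = 0 then 0 else (n : ℂ) ^ (-z), by simp⟩

/-- the indices of the shifts with negative real part -/
noncomputable def neg {k : ℕ} (α : Fin k → ℂ) : Finset (Fin k) :=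
  Finset.univ.filter fun j => (α j).re < 0

/-- the first row of shifts after the swap, as an arithmetic function: the Dirichlet convolution of
the functions `n^{-α_j}`, `Re α_j ≥ 0`, and `n^{β_j}`, `Re β_j < 0`.  The second row after the
swap is `row β α`. -/
noncomputable def row {k : ℕ} (α β : Fin k → ℂ) : ArithmeticFunction ℂ :=
  (∏ j ∈ (neg α)ᶜ, pw (α j)) * ∏ j ∈ neg β, pw (-β j)

/-- the sum of the shifts with negative real part, which are the swapped shifts -/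
noncomputable def w {k : ℕ} (α β : Fin k → ℂ) : ℂ := ∑ j ∈ neg α, α j + ∑ j ∈ neg β, β j

/-- the main term: the mean value over `0 ≤ t ≤ T` of `(t/2π)^{-w}` times the diagonal sum of the
swapped shifts, if the two rows have the same number of shifts with negative real part (this is
the largest term of the recipe); otherwise `0` -/
noncomputable def main {k : ℕ} (T : ℝ) (α β : Fin k → ℂ) : ℂ :=
  if (neg α).card = (neg β).card then
    ((T / (2 * Real.pi) : ℝ) : ℂ) ^ (-w α β) / (1 - w α β) *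
      ∑' n : ℕ, row α β n * row β α n / (n : ℂ)
  else 0

/-- The recipe for shifts `α_j`, `β_j` off the critical line, `|Re α_j| ≥ r_j`, `|Re β_j| ≥ r'_j`,
with all sign patterns of the real parts, with a power saving error term, uniformly in the
shifts. -/
def Recipe (k : ℕ) (r r' : Fin k → ℝ) : Prop :=
  ∀ d L : ℝ, 0 < d → 0 ≤ L → ∃ η C : ℝ, 0 < η ∧ ∀ T : ℝ, 1 ≤ T → ∀ α β : Fin k → ℂ,
    (∀ j, r j ≤ |(α j).re| ∧ |(α j).re| ≤ 1 / 2 - d ∧ r' j ≤ |(β j).re| ∧ |(β j).re| ≤ 1 / 2 - d) →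
    ((∀ j, |(α j).im| ≤ L ∧ |(β j).im| ≤ L) ∨
      ∀ j, 0 ≤ (α j).re ∧ 0 ≤ (β j).re ∧ |(α j).im| ≤ T ∧ |(β j).im| ≤ T) →
    ((neg α).card = (neg β).card → Summable fun n : ℕ => ‖row α β n * row β α n / (n : ℂ)‖) ∧
    ‖(T : ℂ)⁻¹ * (∫ t in (0 : ℝ)..T, ∏ j, (riemannZeta (1 / 2 + α j + t * I) *
      riemannZeta (1 / 2 + β j - t * I))) - main T α β‖ ≤ C * T ^ (-(w α β).re - η)

/-- the line `s` and the order `A`: the moment bound `T^{1+e}` -/
def MomentBound (s A : ℝ) : Prop := ∀ e : ℝ, 0 < e → ∃ C : ℝ, ∀ T : ℝ, 1 ≤ T →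
  ∫ t in T..(2 * T), ‖riemannZeta (s + t * I)‖ ^ A ≤ C * T ^ (1 + e)

/-- the cost of a shift at the distance `r` from the critical line; `q r < 1 / 4 - r` for
`0 < r < 1 / 8` -/
noncomputable def q (r : ℝ) : ℝ :=
  max (max (1 / 4 - 745 / 733 * r) (1 / 8 + 745 / 769 * (1 / 8 - r))) (1 / 8)

theorem row_eq {k : ℕ} (α β : Fin k → ℂ) : row α β = OL.rowA (neg α) (neg β) α β := rfl

theorem mem_neg {k : ℕ} (α : Fin k → ℂ) (j : Fin k) : j ∈ neg α ↔ (α j).re < 0 := by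
  simp [neg]

theorem mb {s A : ℝ} (h1 : s < 1) (hA : 0 ≤ A) (h : MomentBound s A) : OL.MB s A := by
  intro e he
  obtain ⟨C, hC⟩ := h e he
  have hc : Continuous fun t : ℝ => ‖riemannZeta (s + t * I)‖ ^ A :=
    (OL.zeta_cont h1).norm.rpow_const fun _ => Or.inr hA
  obtain ⟨C1, -, h2⟩ := OL.Cx.from_zero hc (fun t => by positivity) (m := 1 + e) (by linarith)
    (abs_nonneg C) (fun T hT => (hC T hT).trans (mul_le_mul_of_nonneg_right (le_abs_self C)
      (Real.rpow_nonneg (by linarith) _)))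
  exact ⟨C1, h2⟩

/-- one pair of sign patterns -/
theorem pattern {k : ℕ} (hk : 1 ≤ k) {d : ℝ} (hd : 0 < d) {s s' A A' r r' : Fin k → ℝ}
    (hs : ∀ j, 1 / 2 ≤ s j ∧ 1 ≤ A j ∧ OL.MB (s j) (A j) ∧ s j < 1 / 2 + r j)
    (hs' : ∀ j, 1 / 2 ≤ s' j ∧ 1 ≤ A' j ∧ OL.MB (s' j) (A' j) ∧ s' j < 1 / 2 + r' j)
    (hsum : ∑ j, 1 / A j + ∑ j, 1 / A' j ≤ 1) {L : ℝ} (hL : 0 ≤ L)
    (p : Finset (Fin k) × Finset (Fin k)) :
    ∃ η C : ℝ, 0 < η ∧ 0 ≤ C ∧ ∀ T : ℝ, 1 ≤ T → ∀ α β : Fin k → ℂ,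
      (∀ j, |(α j).im| ≤ L ∧ |(β j).im| ≤ L) →
      (∀ j, r j ≤ |(α j).re| ∧ |(α j).re| ≤ 1 / 2 - d ∧ r' j ≤ |(β j).re| ∧ |(β j).re| ≤ 1 / 2 - d) →
      neg α = p.1 → neg β = p.2 →
      ((neg α).card = (neg β).card → Summable fun n : ℕ => ‖row α β n * row β α n / (n : ℂ)‖) ∧
      ‖(T : ℂ)⁻¹ * (∫ t in (0 : ℝ)..T, ∏ j, (riemannZeta (1 / 2 + α j + t * I) *
        riemannZeta (1 / 2 + β j - t * I))) - main T α β‖ ≤ C * T ^ (-(w α β).re - η) := by
  obtain ⟨S, S'⟩ := p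
  by_cases hSS : S.card = S'.card
  · obtain ⟨η, C, hη, hC, h⟩ := OL.V14_swap hk hd hs hs' hsum hL S S' hSS
    refine ⟨η, C, hη, hC, fun T hT α β him hre h1 h2 => ?_⟩
    simp only at h1 h2
    obtain ⟨a1, a2⟩ := h T hT α β him hre (fun j => ⟨by rw [← h1]; exact mem_neg α j, by
      rw [← h2]; exact mem_neg β j⟩)
    rw [← h1, ← h2] at a1 a2
    refine ⟨fun _ => a1, ?_⟩
    rw [main, if_pos (by rw [h1, h2]; exact hSS)]
    exact a2
  · obtain ⟨η, C, hη, hC, h⟩ := OL.U8_unbal hk hd hs hs' hsum hL S S' hSS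
    refine ⟨η, C, hη, hC, fun T hT α β him hre h1 h2 => ?_⟩
    simp only at h1 h2
    have a2 := h T hT α β him hre (fun j => ⟨by rw [← h1]; exact mem_neg α j, by
      rw [← h2]; exact mem_neg β j⟩)
    have hne : ¬ (neg α).card = (neg β).card := by rw [h1, h2]; exact hSS
    rw [← h1, ← h2] at a2
    refine ⟨fun h => absurd h hne, ?_⟩
    rw [main, if_neg hne, sub_zero]
    exact a2

/-- the recipe from moment bounds -/
theorem core {k : ℕ} (hk : 1 ≤ k) {s s' A A' r r' : Fin k → ℝ}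
    (hs : ∀ j, 1 / 2 ≤ s j ∧ 1 ≤ A j ∧ OL.MB (s j) (A j) ∧ s j < 1 / 2 + r j)
    (hs' : ∀ j, 1 / 2 ≤ s' j ∧ 1 ≤ A' j ∧ OL.MB (s' j) (A' j) ∧ s' j < 1 / 2 + r' j)
    (hsum : ∑ j, 1 / A j + ∑ j, 1 / A' j ≤ 1) : Recipe k r r' := by
  intro d L hd hL
  have hp := pattern hk hd hs hs' hsum hL
  choose η C hη hC h using hp
  obtain ⟨p1, hp1⟩ := Finite.exists_min η
  obtain ⟨p2, hp2⟩ := Finite.exists_max C
  obtain ⟨η1, C1, hη1, hC1, hV⟩ := OL.V5_abs hk hd hs hs' hsum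
  refine ⟨min (η p1) η1, C p2 + C1, lt_min (hη p1) hη1, fun T hT α β hre him => ?_⟩
  have hT0 : 0 < T := by linarith
  rcases him with him | him
  · obtain ⟨a1, a2⟩ := h (neg α, neg β) T hT α β him hre rfl rfl
    refine ⟨a1, a2.trans ?_⟩
    have b1 : C (neg α, neg β) ≤ C p2 + C1 := by linarith [hp2 (neg α, neg β)]
    have b2 : T ^ (-(w α β).re - η (neg α, neg β)) ≤ T ^ (-(w α β).re - min (η p1) η1) := by
      refine Real.rpow_le_rpow_of_exponent_le hT ?_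
      have := (min_le_left (η p1) η1).trans (hp1 (neg α, neg β))
      linarith
    exact mul_le_mul b1 b2 (by positivity) (by linarith [hC p2])
  · have e1 : neg α = ∅ := by
      rw [Finset.eq_empty_iff_forall_notMem]
      intro j hj
      rw [mem_neg] at hj
      linarith [(him j).1]
    have e2 : neg β = ∅ := by
      rw [Finset.eq_empty_iff_forall_notMem]
      intro j hj
      rw [mem_neg] at hj
      linarith [(him j).2.1]
    obtain ⟨a1, a2, -, -⟩ := hV T hT α β (fun j => by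
        have := hre j
        rw [abs_of_nonneg (him j).1] at this
        exact ⟨this.1, this.2.1, (him j).2.2.1⟩) (fun j => by
        have := hre j
        rw [abs_of_nonneg (him j).2.1] at this
        exact ⟨this.2.2.1, this.2.2.2, (him j).2.2.2⟩)
    have e3 : row α β = OL.DA α := by
      rw [row, e1, e2, Finset.compl_empty, Finset.prod_empty, mul_one]
      rfl
    have e4 : row β α = OL.DA β := by
      rw [row, e1, e2, Finset.compl_empty, Finset.prod_empty, mul_one]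
      rfl
    have e5 : w α β = 0 := by
      rw [w, e1, e2, Finset.sum_empty, Finset.sum_empty, add_zero]
    have e6 : main T α β = ∑' n : ℕ, OL.DA α n * OL.DA β n / (n : ℂ) := by
      rw [main, if_pos (by rw [e1, e2]), e5, e3, e4, neg_zero, Complex.cpow_zero, sub_zero, div_one,
        one_mul]
    rw [e3, e4, e5, e6]
    refine ⟨fun _ => a1, a2.trans ?_⟩
    have b1 : C1 ≤ C p2 + C1 := by linarith [hC p2]
    have b2 : T ^ (-η1) ≤ T ^ (-(0 : ℂ).re - min (η p1) η1) := by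
      refine Real.rpow_le_rpow_of_exponent_le hT ?_
      rw [Complex.zero_re]
      linarith [min_le_right (η p1) η1]
    exact mul_le_mul b1 b2 (by positivity) (by linarith [hC p2])

/-- **Shifted moments off the critical line, all sign patterns.**  (1) The recipe holds for real
parts `|Re α_j| ≥ r_j > 0`, `|Re β_j| ≥ r'_j > 0` if `∑ q(r_j) + ∑ q(r'_j) < 1`; (2) in particular
for `3 + 3` shifts with `|Re| ≥ 1/12 - 1/750`; (3) it holds for `4 + 4` shifts with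
`|Re| ≥ 1/8 - c`, for some `c > 0`; (4) for all `k`, it follows from moment bounds `T^{1+e}` of
orders `A_j`, `A'_j` on lines `s_j < 1/2 + r_j`, `s'_j < 1/2 + r'_j` with
`∑ 1/A_j + ∑ 1/A'_j ≤ 1`. -/
theorem result :
    (∀ k : ℕ, 1 ≤ k → ∀ r r' : Fin k → ℝ, (∀ j, 0 < r j ∧ 0 < r' j) →
      ∑ j, q (r j) + ∑ j, q (r' j) < 1 → Recipe k r r') ∧
    Recipe 3 (fun _ => 1 / 12 - 1 / 750) (fun _ => 1 / 12 - 1 / 750) ∧
    (∃ c : ℝ, 0 < c ∧ Recipe 4 (fun _ => 1 / 8 - c) (fun _ => 1 / 8 - c)) ∧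
    (∀ k : ℕ, 1 ≤ k → ∀ s s' A A' r r' : Fin k → ℝ,
      (∀ j, 1 / 2 ≤ s j ∧ s j < 1 ∧ 1 ≤ A j ∧ MomentBound (s j) (A j) ∧ s j < 1 / 2 + r j) →
      (∀ j, 1 / 2 ≤ s' j ∧ s' j < 1 ∧ 1 ≤ A' j ∧ MomentBound (s' j) (A' j) ∧ s' j < 1 / 2 + r' j) →
      ∑ j, 1 / A j + ∑ j, 1 / A' j ≤ 1 → Recipe k r r') := by
  have h1 : ∀ k : ℕ, 1 ≤ k → ∀ r r' : Fin k → ℝ, (∀ j, 0 < r j ∧ 0 < r' j) →
      ∑ j, q (r j) + ∑ j, q (r' j) < 1 → Recipe k r r' := by
    intro k hk r r' hr h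
    obtain ⟨s, s', A, A', hs, hs', hsum⟩ := OL.V14_choice hk (fun j => (hr j).1) (fun j => (hr j).2) h
    exact core hk hs hs' hsum
  have h4 : ∀ k : ℕ, 1 ≤ k → ∀ s s' A A' r r' : Fin k → ℝ,
      (∀ j, 1 / 2 ≤ s j ∧ s j < 1 ∧ 1 ≤ A j ∧ MomentBound (s j) (A j) ∧ s j < 1 / 2 + r j) →
      (∀ j, 1 / 2 ≤ s' j ∧ s' j < 1 ∧ 1 ≤ A' j ∧ MomentBound (s' j) (A' j) ∧ s' j < 1 / 2 + r' j) →
      ∑ j, 1 / A j + ∑ j, 1 / A' j ≤ 1 → Recipe k r r' := by
    intro k hk s s' A A' r r' hs hs' hsum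
    exact core hk
      (fun j => ⟨(hs j).1, (hs j).2.2.1, mb (hs j).2.1 (by linarith [(hs j).2.2.1]) (hs j).2.2.2.1,
        (hs j).2.2.2.2⟩)
      (fun j => ⟨(hs' j).1, (hs' j).2.2.1, mb (hs' j).2.1 (by linarith [(hs' j).2.2.1])
        (hs' j).2.2.2.1, (hs' j).2.2.2.2⟩) hsum
  refine ⟨h1, ?_, ?_, h4⟩
  · refine h1 3 (by norm_num) _ _ (fun _ => ⟨by norm_num, by norm_num⟩) ?_
    have hq : q (1 / 12 - 1 / 750) < 1 / 6 := by
      unfold q
      rw [max_lt_iff, max_lt_iff]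
      norm_num
    simp only [Finset.sum_const, Finset.card_univ, Fintype.card_fin, nsmul_eq_mul]
    push_cast
    linarith
  · obtain ⟨c0, hc0, h⟩ := OL.eighth
    obtain ⟨c, hc⟩ : ∃ c : ℝ, c = min c0 (1 / 8) := ⟨_, rfl⟩
    have hcp : 0 < c := by rw [hc]; exact lt_min hc0 (by norm_num)
    have hc8 : c ≤ 1 / 8 := by rw [hc]; exact min_le_right _ _
    have hm : MomentBound (5 / 8 - c) 8 := by
      intro e he
      obtain ⟨C, hC⟩ := h c hcp (by rw [hc]; exact min_le_left _ _) e he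
      refine ⟨C, fun T hT => ?_⟩
      have e2 : ∀ t : ℝ, ‖riemannZeta ((5 / 8 - c : ℝ) + t * I)‖ ^ (8 : ℝ) =
          ‖riemannZeta ((5 / 8 - c : ℝ) + t * I)‖ ^ 8 := by
        intro t
        rw [← Real.rpow_natCast]
        norm_num
      simp only [e2]
      exact hC T hT
    refine ⟨c / 2, by positivity, h4 4 (by norm_num) (fun _ => 5 / 8 - c) (fun _ => 5 / 8 - c)
      (fun _ => 8) (fun _ => 8) _ _
      (fun _ => ⟨by linarith, by linarith, by norm_num, hm, by linarith⟩)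
      (fun _ => ⟨by linarith, by linarith, by norm_num, hm, by linarith⟩) ?_⟩
    simp only [Finset.sum_const, Finset.card_univ, Fintype.card_fin, nsmul_eq_mul]
    norm_num

end Pool.Agent.Results.MP_069854_nt.RecipeOffLine
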