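import Mathlib
import Pool.Agent.Lib.MP_069854_nt.Part11

namespace Pool.Agent.Results.MP_069854_nt.ShiftedCubeBound

open Filter Topology Complex MeasureTheory

/-- The Euler factor at the prime `p` of the arithmetic constant `a_3`. -/
noncomputable def eulerFactor (p : Nat.Primes) : ℝ :=
  (1 - 1 / ((p : ℕ) : ℝ)) ^ 9 * ∑' m : ℕ, ((m + 2).choose 2 : ℝ) ^ 2 / ((p : ℕ) : ℝ) ^ m

/-- The arithmetic factor `a_3`. -/
noncomputable def a : ℝ := ∏' p : Nat.Primes, eulerFactor p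

/-- `P(y) = ∑ c_j e^{-i x_j y}`. -/
noncomputable def P {m : ℕ} (x : Fin m → ℝ) (c : Fin m → ℂ) (y : ℝ) : ℂ :=
  ∑ j, c j * Complex.exp (-(I * x j * y))

/-- Half of the Vandermonde determinant of `u = (u₁, u₂, u₃)`. -/
noncomputable def V (u : ℝ × ℝ × ℝ) : ℝ := (u.2.1 - u.1) * (u.2.2 - u.1) * (u.2.2 - u.2.1) / 2

/-- The region `E`. -/
def E : Set (ℝ × ℝ × ℝ) := {u | 0 < u.1 ∧ u.1 < u.2.1 ∧ u.2.1 < u.2.2 ∧ u.2.2 < 1 ∧
  1 < u.1 + u.2.1 + u.2.2 ∧ u.1 + u.2.1 + u.2.2 < 3 / 2 ∧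
  (3 * (u.1 + u.2.1) < 2 * u.2.2 ∨ (1 / 2 < u.2.2 - u.1 ∧ 4 * (u.1 + u.2.1) < 2 * u.2.2 + 1))}

/-- Lower bound for the mean square of `∑ c_j ζ(1/2 + i x_j/log T + it)³`. -/
theorem result :
    Multipliable eulerFactor ∧ 0 < a ∧
    (2918337042697 / 72900000000 : ℝ) ≤ 2 + 2 * (Nat.factorial 9 : ℝ) * ∫ u in E, V u ^ 2 ∧
    ∀ (m : ℕ) (x : Fin m → ℝ) (c : Fin m → ℂ) (ε : ℝ), 0 < ε → ∀ᶠ T : ℝ in atTop,
      a * ((∫ y in (0 : ℝ)..1, (‖P x c y‖ ^ 2 + ‖P x c (3 - y)‖ ^ 2) * (y ^ 8 / Nat.factorial 8)) +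
        ∫ u in E, (‖P x c (u.1 + u.2.1 + u.2.2)‖ ^ 2 +
          ‖P x c (3 - (u.1 + u.2.1 + u.2.2))‖ ^ 2) * V u ^ 2) - ε ≤
      (T * Real.log T ^ 9)⁻¹ * ∫ t in (0 : ℝ)..T,
        ‖∑ j, c j * riemannZeta (1 / 2 + I * x j / Real.log T + I * t) ^ 3‖ ^ 2 := by
  have hEF : ∀ p : Nat.Primes, eulerFactor p = (1 - 1 / ((p : ℕ) : ℝ)) ^ (3 ^ 2) *
      ∑' m : ℕ, (MP069854.dk 3 ((p : ℕ) ^ m) : ℝ) ^ 2 / ((p : ℕ) : ℝ) ^ m := by
    intro p
    unfold eulerFactor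
    congr 1
    refine tsum_congr fun m => ?_
    rw [MP069854.dk_prime_pow p.2, Nat.multichoose_eq, show 3 + m - 1 = m + 2 by omega,
      Nat.choose_symm_of_eq_add (show m + 2 = m + 2 from rfl)]
  have ha : a = MP069854.arith 3 := by
    unfold a MP069854.arith
    exact tprod_congr hEF
  have hapos : 0 < a := by rw [ha]; exact MP069854.arith_pos 3
  refine ⟨?_, hapos, ?_, ?_⟩
  · have := MP069854.arith_multipliable 3
    exact this.congr fun p => (hEF p).symm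
  · have h := K3.val_Eu
    have e : ∫ u in E, V u ^ 2 = ∫ u in K3.Eu, K3.Vd u ^ 2 := rfl
    rw [e]
    linarith
  · intro m x c ε hε
    have hP : ∀ y : ℝ, P x c y = K3.Pf x c y := by
      intro y
      unfold P K3.Pf
      refine Finset.sum_congr rfl fun j _ => ?_
      congr 2
      push_cast; ring
    have h := K3.final0 K3.goodRG x c hε
    refine h.mono fun T hT => ?_
    simp only [hP, ha]
    exact hT

end Pool.Agent.Results.MP_069854_nt.ShiftedCubeBound
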